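import Pool.Agent.helper70.LZ.SpecZ

/-!
# lz:ZRG: products of characters
-/

set_option autoImplicit false

namespace Pool.Agent.LE

open Pool.Agent.helper58.DC Pool.Agent.DI Pool.Agent.GR Pool.Agent.OB Pool.Agent.DR Pool.Agent.FI Pool.Agent.FI3 Pool.Agent.FI4

theorem ZRG_bij (H : Type) [Group H] (L : Subgroup H) :
    Set.BijOn (fun (ψ : H → ℂ) (l : L) => ψ (l : H)) (IrrOn L) (Irr L) := by
  classical
  refine ⟨fun ψ hψ => hψ.2, ?_, ?_⟩
  · intro ψ hψ ψ' hψ' he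
    funext x
    by_cases hx : x ∈ L
    · exact congrFun he ⟨x, hx⟩
    · rw [hψ.1 x hx, hψ'.1 x hx]
  · intro ψ hψ
    refine ⟨fun x => if hx : x ∈ L then ψ ⟨x, hx⟩ else 0, ⟨?_, ?_⟩, ?_⟩
    · intro g hg
      exact dif_neg hg
    · have e : (fun h : L => (fun x : H => if hx : x ∈ L then ψ ⟨x, hx⟩ else 0) (h : H)) = ψ := by
        funext h
        have h1 : (h : H) ∈ L := h.2
        show (if hx : (h : H) ∈ L then ψ ⟨(h : H), hx⟩ else 0) = ψ h
        rw [dif_pos h1]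
      rw [e]
      exact hψ
    · funext h
      have h1 : (h : H) ∈ L := h.2
      show (if hx : (h : H) ∈ L then ψ ⟨(h : H), hx⟩ else 0) = ψ h
      rw [dif_pos h1]

theorem ZRG (hQRP : QRP_stmt) (_hQEV : QEV_stmt) : ZRG_stmt := by
  intro G _ _ K κ hκ η hη
  obtain ⟨_, V, _, _, _, ρ, _, hρ⟩ := hκ
  obtain ⟨_, W, _, _, _, σ, _, hσ⟩ := hη
  obtain ⟨m, hm⟩ := hQRP K (TensorProduct ℂ V W) (Representation.tprod ρ σ)
  refine ⟨fun ψ => m (fun l : K => ψ (l : G)), fun x hx => ?_⟩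
  have h1 := hm ⟨x, hx⟩
  have h2 : (Representation.tprod ρ σ).character ⟨x, hx⟩ = κ x * η x := by
    rw [Representation.char_tensor, Pi.mul_apply, hρ, hσ]
  rw [← h2, h1]
  symm
  refine finsum_mem_eq_of_bijOn (fun (ψ : G → ℂ) (l : K) => ψ (l : G)) (ZRG_bij G K) ?_
  intro ψ _
  rfl

end Pool.Agent.LE
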